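import Pool.Agent.H62.LPD.Main

set_option autoImplicit false

namespace Pool.Agent.Results.MP_f4c4b9_an.AllBalls

open H62.LPD

/-- (1) If the closed unit ball of `ℝ³` is an affine retract of the closed convex set `C` of `ℝ^d`
then the operator system of the minimal matrix convex set over `C` does not have the lifting
property. (2) In particular this holds for the closed unit ball of `ℝ^d`, for every `d ≥ 3`.
(3) The minimal operator system structure on `M_n` does not have the lifting property, for every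
`n ≥ 2`. (4) The case `d = 3` of (2), with the definitions written for triples. -/
theorem result :
    (∀ (d : ℕ) (C : Set (Fin d → ℝ)), IsClosed C → Convex ℝ C →
      (∃ (a : (Fin 3 → ℝ) →ᵃ[ℝ] (Fin d → ℝ)) (b : (Fin d → ℝ) →ᵃ[ℝ] (Fin 3 → ℝ)),
        (∀ x ∈ ball 3, a x ∈ C) ∧ (∀ x ∈ C, b x ∈ ball 3) ∧ ∀ x, b (a x) = x) →
      ¬ HasLiftingProperty C) ∧
    (∀ d : ℕ, 3 ≤ d → ¬ HasLiftingProperty (ball d)) ∧
    (∀ n : ℕ, 2 ≤ n → ¬ MinHasLiftingProperty n) ∧
    ¬ H93.LP3.HasLiftingProperty :=
  ⟨fun _ _ hC hc ⟨a, b, ha, hb, hab⟩ => not_lifting_of_retract hC hc a b ha hb hab,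
    fun _ hd => not_lifting_ball hd, fun _ hn => not_min_lifting hn, H93.LP3.no_lifting⟩

end Pool.Agent.Results.MP_f4c4b9_an.AllBalls
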